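import Pool.Agent.T6.H87.GapMin2

set_option autoImplicit false

/-!
MP_2920eb_co: the conjecture on the extremal graphs is false for the family of the graphs of
minimum degree at least `d`, for `d = 7, 15, 22`, for infinitely many primes `d`, and for all prime
powers `d` for which there is no plane of order `d - 1` (for example `d = 11`).
-/

namespace Pool.Agent.Results.MP_2920eb_co.MinDegreeFamily

open Pool.Agent.H444R3.GapDefs Pool.Agent.H177R2.SD Pool.Agent.T6.H87.GapMin

/-- The supremum for the minimum degree `d` is at least `√q / (q + 1)`, every incidence graph of a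
design with block size `d` in this family has a smaller gap, and so no graph attaining the supremum
is such an incidence graph. -/
def Fails (d q : ℕ) : Prop :=
  Real.sqrt q / ((q : ℝ) + 1) ≤ sSup (gapsMin d) ∧
  (∀ (V : Type) [Fintype V] (G : SimpleGraph V), IsMinDeg d G → IsDesignGraph G d →
    gap G < Real.sqrt q / ((q : ℝ) + 1)) ∧
  (∀ (V : Type) [Fintype V] (G : SimpleGraph V), IsMinDeg d G → gap G = sSup (gapsMin d) →
    ¬ IsDesignGraph G d)

theorem fails_of {d q c : ℕ} (hd : 3 ≤ d) (hq : IsPrimePow q) (hdq : d ≤ q) (hc : q + 2 ≤ d + c)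
    (hno : ∀ l, 1 ≤ l → l < c → ∀ v, ¬ IsSymmetricDesign v d l) : Fails d q := by
  refine ⟨le_sup hd hq hdq, ?_, ?_⟩
  · intro V _ G hG hD
    exact design_lt hd hdq hc hno G hG hD
  · intro V _ G hG hgap hD
    have h1 := design_lt hd hdq hc hno G hG hD
    have h2 := le_sup hd hq hdq
    rw [hgap] at h1
    linarith

theorem noPlane_of {k p : ℕ} (hk : 3 ≤ k) (hk4 : k % 4 = 2 ∨ k % 4 = 3) (hp : p.Prime)
    (hp4 : p % 4 = 3) (h1 : p ∣ k - 1) (h2 : ¬ p ^ 2 ∣ k - 1) : NoPlane (k - 1) := by
  by_contra hcon
  have h3 := symm_of_plane (by omega) hcon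
  have h4 : k - 1 + 1 = k := by omega
  rw [h4] at h3
  exact no_plane_local hk hk4 hp hp4 h1 h2 _ h3

theorem result :
    -- (1) a criterion
    (∀ d q c : ℕ, 3 ≤ d → IsPrimePow q → d ≤ q → q + 2 ≤ d + c →
      (∀ l, 1 ≤ l → l < c → ∀ v, ¬ IsSymmetricDesign v d l) → Fails d q) ∧
    -- (2) prime powers `d` for which there is no plane of order `d - 1`
    (∀ d : ℕ, 3 ≤ d → IsPrimePow d → NoPlane (d - 1) → Fails d d) ∧
    -- (3) infinitely many primes `d`
    {d : ℕ | d.Prime ∧ 3 ≤ d ∧ NoPlane (d - 1) ∧ Fails d d}.Infinite ∧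
    -- (4) small cases
    (NoPlane 6 ∧ Fails 7 7) ∧ (NoPlane 14 ∧ Fails 15 16) ∧ (NoPlane 21 ∧ Fails 22 23) := by
  have h2 : ∀ d : ℕ, 3 ≤ d → IsPrimePow d → NoPlane (d - 1) → Fails d d := by
    intro d hd hq hno
    refine fails_of (c := 2) hd hq le_rfl (by omega) ?_
    intro l hl1 hl2 v hv
    have : l = 1 := by omega
    subst this
    exact plane_of_symm hd hv hno
  refine ⟨fun d q c hd hq hdq hc hno => fails_of hd hq hdq hc hno, h2, ?_, ?_, ?_, ?_⟩
  · have hinf : {p : ℕ | p.Prime ∧ (p : ZMod 36) = 7}.Infinite :=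
      Nat.infinite_setOf_prime_and_eq_mod (q := 36) (a := 7)
        ((ZMod.isUnit_iff_coprime 7 36).2 (by norm_num))
    refine hinf.mono ?_
    rintro p ⟨hp, hp36⟩
    have h36 : p % 36 = 7 := by
      have h3 : ((p : ℕ) : ZMod 36) = ((7 : ℕ) : ZMod 36) := by rw [hp36]; rfl
      rw [ZMod.natCast_eq_natCast_iff] at h3
      have := h3
      unfold Nat.ModEq at this
      omega
    have hp3 : 3 ≤ p := by omega
    have hno : NoPlane (p - 1) := noPlane_of (p := 3) hp3 (by omega) Nat.prime_three (by norm_num)
      (by omega) (by norm_num; omega)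
    exact ⟨hp, hp3, hno, h2 p hp3 hp.isPrimePow hno⟩
  · have hno : NoPlane 6 := noPlane_of (k := 7) (p := 3) (by norm_num) (by norm_num)
      Nat.prime_three (by norm_num) (by norm_num) (by norm_num)
    exact ⟨hno, h2 7 (by norm_num) (by norm_num : Nat.Prime 7).isPrimePow hno⟩
  · refine ⟨noPlane_of (k := 15) (p := 7) (by norm_num) (by norm_num) (by norm_num) (by norm_num)
      (by norm_num) (by norm_num), ?_⟩
    refine fails_of (c := 3) (by norm_num) ?_ (by norm_num) (by norm_num) ?_
    · exact ⟨2, 4, Nat.prime_two.prime, by norm_num, by norm_num⟩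
    · intro l hl1 hl2 v hv
      have : l = 1 ∨ l = 2 := by omega
      rcases this with rfl | rfl
      · exact no_plane_local (p := 7) (by norm_num) (by norm_num) (by norm_num) (by norm_num)
          (by norm_num) (by norm_num) v hv
      · have hpar := symm_par hv
        have hv106 : v = 106 := by omega
        subst hv106
        exact no_even_local (p := 13) (by norm_num) (by norm_num) (by norm_num) (by norm_num)
          (by norm_num) (by norm_num) (by norm_num) (by norm_num) hv
  · refine ⟨noPlane_of (k := 22) (p := 3) (by norm_num) (by norm_num) (by norm_num) (by norm_num)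
      (by norm_num) (by norm_num), ?_⟩
    refine fails_of (c := 3) (by norm_num) (by norm_num : Nat.Prime 23).isPrimePow (by norm_num)
      (by norm_num) ?_
    intro l hl1 hl2 v hv
    have : l = 1 ∨ l = 2 := by omega
    rcases this with rfl | rfl
    · exact no_plane_local (p := 3) (by norm_num) (by norm_num) (by norm_num) (by norm_num)
        (by norm_num) (by norm_num) v hv
    · have hpar := symm_par hv
      have hv232 : v = 232 := by omega
      subst hv232
      exact no_even_local (p := 5) (by norm_num) (by norm_num) (by norm_num) (by norm_num)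
        (by norm_num) (by norm_num) (by norm_num) (by norm_num) hv

end Pool.Agent.Results.MP_2920eb_co.MinDegreeFamily
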